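import Pool.Agent.GB24.HiddenFew
import Pool.Agent.NTN.AvgClass

set_option autoImplicit false

/-!
# Zeros must be seen, average case

`f` restricted is a conjunction of `r` blocks `g`; the distribution: all blocks are drawn from `D₁`
(ones of `g`) or, with probability `1 / 2`, one uniform block is drawn from `D₀` (zeros of `g`).
-/

namespace Pool.Agent.AVZ

open Finset Pool.Agent.NegLim Pool.Agent.NTR Pool.Agent.NTR.Gen Pool.Agent.NWE Pool.Agent.GB24
  Pool.Agent.GB24.Loc Pool.Agent.NTN
open scoped BigOperators

/-- The devices `D y` (`y` a guess) are right on `x` seeing at most `w` zeros in `U`: `f x` holds and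
they accept `x` seeing at most `w` zeros in `U`, or `f x` does not hold and no `D y` accepts `x`. -/
def RightSees {ι Y : Type} [DecidableEq ι] (f : (ι → Bool) → Prop) (U : Finset ι) (w : ℕ)
    (D : Y → (ι → Option Bool) → Bool) (x : ι → Bool) : Prop :=
  (f x ∧ AccSees U w D x) ∨ (¬ f x ∧ ∀ y, D y (fun v => some (x v)) = false)

open Classical in
/-- For some probability distribution `μ` on the inputs which agree with some `ρ` outside `U`,
devices `D y` (`y ∈ Y` a guess) of the class `K`, at most `A` of them accepting an input, are right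
seeing at most `w` zeros in `U` with probability at most `1 / 2 + δ + w c`. -/
def HardAvg {ι : Type} [Fintype ι] [DecidableEq ι] (f : (ι → Bool) → Prop) (U : Finset ι)
    (K : ((ι → Option Bool) → Bool) → Prop) (A : ℕ) (δ c : ℝ) : Prop :=
  ∃ (ρ : ι → Bool) (μ : (ι → Bool) → ℝ), (∀ x, 0 ≤ μ x) ∧ ∑ x, μ x = 1 ∧
    (∀ x, μ x ≠ 0 → ∀ v, v ∉ U → x v = ρ v) ∧
    ∀ (Y : Type) [Fintype Y] (w : ℕ) (D : Y → (ι → Option Bool) → Bool), (∀ y, K (D y)) →
      (∀ x : ι → Bool, (∀ v, v ∉ U → x v = ρ v) → {y | D y (fun v => some (x v)) = true}.ncard ≤ A) →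
      ∑ x with RightSees f U w D x, μ x ≤ 1 / 2 + δ + w * c

section

variable {ι β : Type} {r : ℕ} (φ : ι → (Fin r × β) ⊕ Bool)

/-- The input with the blocks `Z`. -/
def eZ (Z : Fin r → β → Bool) (v : ι) : Bool := Sum.elim (fun p => Z p.1 p.2) id (φ v)

/-- The known literals if exactly the zeros of the block `i` are hidden. -/
def kn (i : Fin r) (Z : Fin r → β → Bool) : ι ⊕ ι → Bool :=
  Sum.elim (eZ φ Z) fun v =>
    Sum.elim (fun p => if p.1 = i then false else !Z p.1 p.2) (fun c => !c) (φ v)

lemma kn_le_some (i : Fin r) (Z : Fin r → β → Bool) :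
    kn φ i Z ≤ known fun v => some (eZ φ Z v) := by
  rw [known_some]
  rintro (v | v)
  · exact le_rfl
  · simp only [kn, eZ, Sum.elim_inr]
    cases h : φ v with
    | inl p =>
      simp only [Sum.elim_inl]
      split_ifs
      · exact Bool.false_le _
      · exact le_rfl
    | inr c => exact le_rfl

/-- The input whose block `i` is all ones. -/
lemma kn_le_top (i : Fin r) (Z : Fin r → β → Bool) (u : β → Bool) :
    kn φ i (Function.update Z i u) ≤
      known fun v => some (eZ φ (Function.update Z i fun _ => true) v) := by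
  rw [known_some]
  rintro (v | v)
  · simp only [kn, eZ, Sum.elim_inl]
    cases h : φ v with
    | inl p =>
      simp only [Sum.elim_inl]
      by_cases hp : p.1 = i
      · rw [hp, Function.update_self, Function.update_self]
        exact Bool.le_true _
      · rw [Function.update_of_ne hp, Function.update_of_ne hp]
    | inr c => exact le_rfl
  · simp only [kn, eZ, Sum.elim_inr]
    cases h : φ v with
    | inl p =>
      simp only [Sum.elim_inl]
      by_cases hp : p.1 = i
      · rw [if_pos hp]
        exact Bool.false_le _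
      · rw [if_neg hp, Function.update_of_ne hp, Function.update_of_ne hp]
    | inr c => exact le_rfl

/-- The substitution which leaves the block `i` free and hides its zeros. -/
def sgm (i : Fin r) (Z : Fin r → β → Bool) : ι ⊕ ι → β ⊕ Bool :=
  Sum.elim (fun v => Sum.elim (fun p : Fin r × β => if p.1 = i then Sum.inl p.2 else
      Sum.inr (Z p.1 p.2)) Sum.inr (φ v))
    fun v => Sum.inr (Sum.elim (fun p : Fin r × β => if p.1 = i then false else !Z p.1 p.2)
      (fun c => !c) (φ v))

lemma kn_update (i : Fin r) (Z : Fin r → β → Bool) (u : β → Bool) :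
    kn φ i (Function.update Z i u) = fun s => Sum.elim u id (sgm φ i Z s) := by
  funext s
  rcases s with v | v
  · simp only [kn, eZ, sgm, Sum.elim_inl]
    cases h : φ v with
    | inl p =>
      simp only [Sum.elim_inl]
      by_cases hp : p.1 = i
      · rw [if_pos hp, hp, Function.update_self]
        rfl
      · rw [if_neg hp, Function.update_of_ne hp]
        rfl
    | inr c => rfl
  · simp only [kn, sgm, Sum.elim_inr, id]
    cases h : φ v with
    | inl p =>
      simp only [Sum.elim_inl]
      by_cases hp : p.1 = i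
      · rw [if_pos hp, if_pos hp]
      · rw [if_neg hp, if_neg hp, Function.update_of_ne hp]
    | inr c => rfl

/-- Seen zeros outside the block `i`. -/
lemma hide_le_kn [DecidableEq ι] {U Z : Finset ι} (hφ : ∀ v, v ∉ U → ∃ c, φ v = .inr c)
    (B : Fin r → β → Bool) (hZ : ∀ v ∈ Z, eZ φ B v = false) (i : Fin r)
    (hi : ∀ v ∈ Z, ∀ b, φ v ≠ .inl (i, b)) :
    known (hide U Z (eZ φ B)) ≤ kn φ i B := by
  rw [known_hide U Z _ hZ]
  rintro (v | v)
  · exact le_rfl
  · simp only [kn, Sum.elim_inr]
    cases h : φ v with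
    | inl p =>
      have hvU : v ∈ U := by
        by_contra hv
        obtain ⟨c, hc⟩ := hφ v hv
        rw [h] at hc
        cases hc
      rw [if_pos hvU]
      simp only [Sum.elim_inl]
      by_cases hp : p.1 = i
      · rw [if_pos hp]
        have h1 : v ∉ Z := fun hv => hi v hv p.2 (by rw [h, ← hp])
        simp [h1]
      · rw [if_neg hp]
        by_cases hv : v ∈ Z
        · have h1 := hZ v hv
          simp only [eZ, h, Sum.elim_inl] at h1
          rw [h1]
          exact Bool.le_true _
        · simp [hv]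
    | inr c =>
      simp only [Sum.elim_inr]
      split_ifs with h1
      · by_cases hv : v ∈ Z
        · have h2 := hZ v hv
          simp only [eZ, h, Sum.elim_inr, id] at h2
          rw [h2]
          exact Bool.le_true _
        · simp [hv]
      · simp [eZ, h]

end

open Classical in
/-- **Zeros must be seen, average case.** -/
theorem avg_sees {ι β : Type} [Fintype ι] [DecidableEq ι] [Fintype β] {U : Finset ι} {r A : ℕ}
    (hr : 1 ≤ r) (K : MonoClass) (g : (β → Bool) → Bool) (f : (ι → Bool) → Prop)
    (φ : ι → (Fin r × β) ⊕ Bool) (hφ : ∀ v, v ∉ U → ∃ c, φ v = .inr c)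
    (hf : ∀ y : Fin r × β → Bool, f (fun v => Sum.elim y id (φ v)) ↔
      ∀ i, g (fun b => y (i, b)) = true)
    (D₀ D₁ : (β → Bool) → ℝ) (h0 : ∀ u, 0 ≤ D₀ u) (h0s : ∑ u, D₀ u = 1)
    (h0z : ∀ u, D₀ u ≠ 0 → g u = false) (h1 : ∀ u, 0 ≤ D₁ u) (h1s : ∑ u, D₁ u = 1)
    (h1z : ∀ u, D₁ u ≠ 0 → g u = true) (δ : ℝ)
    (hδ : ∀ H ∈ orSet K β A, ∑ u with H u = true, D₁ u ≤ ∑ u with H u = true, D₀ u + δ)
    (K' : ((ι → Option Bool) → Bool) → Prop)
    (hK' : ∀ D, K' D → ∃ F, K.mem (ι ⊕ ι) F ∧ ∀ p, D p = F (known p)) :
    HardAvg f U K' A (δ / 2) (1 / (2 * r)) := by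
  have hr0 : (0 : ℝ) < r := by exact_mod_cast (by omega : 0 < r)
  have hfe : ∀ Z : Fin r → β → Bool, f (eZ φ Z) ↔ ∀ i, g (Z i) = true := fun Z =>
    hf fun p => Z p.1 p.2
  -- the distribution
  let μ : (ι → Bool) → ℝ := fun x => (∑ i : Fin r, ∑ Z : Fin r → β → Bool, wt D₁ Z *
    (ip (eZ φ Z = x) + ∑ u, D₀ u * ip (eZ φ (Function.update Z i u) = x))) / (2 * r)
  have hμsum : ∀ (P : (ι → Bool) → Prop) [DecidablePred P], ∑ x with P x, μ x =
      (∑ i : Fin r, ∑ Z : Fin r → β → Bool, wt D₁ Z *
        (ip (P (eZ φ Z)) + ∑ u, D₀ u * ip (P (eZ φ (Function.update Z i u))))) / (2 * r) := by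
    intro P _
    simp only [μ]
    rw [← Finset.sum_div]
    congr 1
    rw [Finset.sum_comm]
    refine Finset.sum_congr rfl fun i _ => ?_
    rw [Finset.sum_comm]
    refine Finset.sum_congr rfl fun Z _ => ?_
    rw [← Finset.mul_sum, Finset.sum_add_distrib, sum_ip_eq, Finset.sum_comm]
    congr 2
    refine Finset.sum_congr rfl fun u _ => ?_
    rw [← Finset.mul_sum, sum_ip_eq]
  have hw0 : ∀ Z : Fin r → β → Bool, 0 ≤ wt D₁ Z := fun Z =>
    Finset.prod_nonneg fun j _ => h1 _
  let ρ : ι → Bool := fun v => Sum.elim (fun _ => false) id (φ v)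
  have hρ : ∀ (Z : Fin r → β → Bool) (v : ι), v ∉ U → eZ φ Z v = ρ v := by
    intro Z v hv
    obtain ⟨c, hc⟩ := hφ v hv
    simp only [eZ, ρ, hc, Sum.elim_inr]
  refine ⟨ρ, μ, ?_, ?_, ?_, ?_⟩
  · intro x
    refine div_nonneg (Finset.sum_nonneg fun i _ => Finset.sum_nonneg fun Z _ =>
      mul_nonneg (hw0 Z) (add_nonneg (ip_nonneg _) ?_)) (by positivity)
    exact Finset.sum_nonneg fun u _ => mul_nonneg (h0 u) (ip_nonneg _)
  · have h2 := hμsum (fun _ => True)
    rw [Finset.filter_true] at h2
    have h3 : ∀ i : Fin r, ∑ Z : Fin r → β → Bool, wt D₁ Z *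
        (ip True + ∑ u, D₀ u * ip True) = 2 := by
      intro i
      rw [ip_true trivial]
      simp only [mul_one]
      rw [h0s, ← Finset.sum_mul, wt_sum h1s]
      norm_num
    rw [h2, Finset.sum_congr rfl fun i _ => h3 i, Finset.sum_const, Finset.card_univ,
      Fintype.card_fin, nsmul_eq_mul]
    field_simp
  · intro x hx v hv
    have h2 : (∑ i : Fin r, ∑ Z : Fin r → β → Bool, wt D₁ Z *
        (ip (eZ φ Z = x) + ∑ u, D₀ u * ip (eZ φ (Function.update Z i u) = x))) ≠ 0 := by
      intro h3
      apply hx
      simp only [μ]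
      rw [h3, zero_div]
    obtain ⟨i, -, h3⟩ := Finset.exists_ne_zero_of_sum_ne_zero h2
    obtain ⟨Z, -, h4⟩ := Finset.exists_ne_zero_of_sum_ne_zero h3
    have h5 := right_ne_zero_of_mul h4
    by_cases h6 : eZ φ Z = x
    · rw [← h6]
      exact hρ Z v hv
    · rw [ip_false h6, zero_add] at h5
      obtain ⟨u, -, h7⟩ := Finset.exists_ne_zero_of_sum_ne_zero h5
      have h8 : eZ φ (Function.update Z i u) = x := by
        by_contra h9
        rw [ip_false h9, mul_zero] at h7
        exact h7 rfl
      rw [← h8]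
      exact hρ _ v hv
  · intro Y _ w D hD hA
    choose F hF hDF using fun y => hK' (D y) (hD y)
    have hFm : ∀ y, Monotone (F y) := fun y => K.mono _ _ (hF y)
    let T : Fin r → (Fin r → β → Bool) → Prop := fun i Z => ∃ y, F y (kn φ i Z) = true
    -- the event `T` is a disjunction of functions of the class
    have hT : ∀ (i : Fin r) (Z : Fin r → β → Bool),
        ∑ u, D₁ u * ip (T i (Function.update Z i u)) ≤
          ∑ u, D₀ u * ip (T i (Function.update Z i u)) + δ := by
      intro i Z
      set top : ι → Bool := eZ φ (Function.update Z i fun _ => true) with htop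
      set ys : Finset Y := univ.filter fun y => D y (fun v => some (top v)) = true with hys
      have hcard : ys.card ≤ A := by
        have h2 := hA top (fun v hv => hρ _ v hv)
        rw [Set.ncard_eq_toFinset_card'] at h2
        refine le_trans (le_of_eq ?_) h2
        congr 1
        ext y
        simp [hys]
      set Gs : List ((β → Bool) → Bool) := ys.toList.map fun y u =>
        F y fun s => Sum.elim u id (sgm φ i Z s) with hGs
      have hH : (fun u => decide (T i (Function.update Z i u))) ∈ orSet K β A := by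
        refine ⟨Gs, ?_, ?_, fun u => ?_⟩
        · rw [hGs, List.length_map, Finset.length_toList]
          exact hcard
        · intro G hG
          obtain ⟨y, -, rfl⟩ := List.mem_map.1 hG
          exact K.subst _ _ _ (sgm φ i Z) (hF y)
        · rw [decide_eq_true_eq]
          constructor
          · rintro ⟨y, hy⟩
            refine ⟨_, List.mem_map.2 ⟨y, ?_, rfl⟩, ?_⟩
            · rw [Finset.mem_toList, hys, Finset.mem_filter]
              refine ⟨mem_univ _, ?_⟩
              rw [hDF]
              have h2 := hFm y (kn_le_top φ i Z u)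
              rw [hy] at h2
              exact Bool.eq_true_of_true_le h2
            · rw [← kn_update]
              exact hy
          · rintro ⟨G, hG, hGu⟩
            obtain ⟨y, -, rfl⟩ := List.mem_map.1 hG
            refine ⟨y, ?_⟩
            rw [kn_update]
            exact hGu
      have h2 := hδ _ hH
      have h3 : ∀ D' : (β → Bool) → ℝ,
          ∑ u with (fun u => decide (T i (Function.update Z i u))) u = true, D' u
            = ∑ u, D' u * ip (T i (Function.update Z i u)) := by
        intro D'
        rw [Finset.sum_filter]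
        refine Finset.sum_congr rfl fun u _ => ?_
        by_cases h4 : T i (Function.update Z i u)
        · rw [ip_true h4, if_pos (by simpa using h4), mul_one]
        · rw [ip_false h4, if_neg (by simpa using h4), mul_zero]
      rw [h3, h3] at h2
      exact h2
    -- accepted inputs: all blocks but `w` are not touched
    have hacc : ∀ Z : Fin r → β → Bool, AccSees U w D (eZ φ Z) →
        (r : ℝ) ≤ ∑ i : Fin r, ip (T i Z) + w := by
      rintro Z ⟨y, S, hSU, hSw, hS, hy⟩
      set tb : Finset (Fin r) := univ.filter fun i => ∃ v ∈ S, ∃ b, φ v = .inl (i, b) with htb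
      have h2 : tb.card ≤ w := by
        refine le_trans ?_ hSw
        refine Finset.card_le_card_of_surjOn
          (fun v => Sum.elim (fun p : Fin r × β => p.1) (fun _ => ⟨0, by omega⟩) (φ v)) ?_
        intro i hi
        obtain ⟨v, hv, b, hb⟩ := (Finset.mem_filter.1 (Finset.mem_coe.1 hi)).2
        exact ⟨v, Finset.mem_coe.2 hv, by simp only [hb, Sum.elim_inl]⟩
      have h3 : ∀ i, i ∉ tb → T i Z := by
        intro i hi
        refine ⟨y, ?_⟩
        have h4 := hFm y (hide_le_kn φ hφ Z hS i fun v hv b hb => hi (by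
          rw [htb, Finset.mem_filter]
          exact ⟨mem_univ _, v, hv, b, hb⟩))
        rw [← hDF, hy] at h4
        exact Bool.eq_true_of_true_le h4
      have h5 : (r : ℝ) = ∑ i : Fin r, (1 : ℝ) := by
        rw [Finset.sum_const, Finset.card_univ, Fintype.card_fin, nsmul_eq_mul, mul_one]
      have h6 : ∑ i : Fin r, (1 : ℝ) ≤ ∑ i : Fin r, (ip (T i Z) + if i ∈ tb then 1 else 0) := by
        refine Finset.sum_le_sum fun i _ => ?_
        by_cases hi : i ∈ tb
        · rw [if_pos hi]
          have := ip_nonneg (T i Z)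
          linarith
        · rw [if_neg hi, ip_true (h3 i hi)]
          norm_num
      have h8 : ∑ i : Fin r, (if i ∈ tb then (1 : ℝ) else 0) = tb.card := by
        rw [Finset.sum_ite_mem, Finset.univ_inter, Finset.sum_const, nsmul_eq_mul, mul_one]
      rw [Finset.sum_add_distrib, h8, ← h5] at h6
      have h7 : (tb.card : ℝ) ≤ w := by exact_mod_cast h2
      linarith
    have hrej : ∀ (i : Fin r) (Z : Fin r → β → Bool),
        (∀ y, D y (fun v => some (eZ φ Z v)) = false) → ¬ T i Z := by
      rintro i Z h2 ⟨y, hy⟩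
      have h3 := hFm y (kn_le_some φ i Z)
      rw [hy, ← hDF, h2 y] at h3
      exact absurd (Bool.eq_true_of_true_le h3) (by simp)
    -- the yes part
    have e1 : ∑ i : Fin r, ∑ Z : Fin r → β → Bool, wt D₁ Z * ip (RightSees f U w D (eZ φ Z))
        ≤ ∑ i : Fin r, ∑ Z : Fin r → β → Bool, wt D₁ Z * ip (T i Z) + w := by
      rw [Finset.sum_comm, Finset.sum_comm (s := (univ : Finset (Fin r)))]
      have h2 : (w : ℝ) = ∑ Z : Fin r → β → Bool, wt D₁ Z * w := by
        rw [← Finset.sum_mul, wt_sum h1s, one_mul]
      rw [h2, ← Finset.sum_add_distrib]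
      refine Finset.sum_le_sum fun Z _ => ?_
      rw [← Finset.mul_sum, ← Finset.mul_sum, ← mul_add]
      rcases eq_or_ne (wt D₁ Z) 0 with h3 | h3
      · rw [h3, zero_mul, zero_mul]
      · refine mul_le_mul_of_nonneg_left ?_ (hw0 Z)
        have h4 : f (eZ φ Z) := (hfe Z).2 fun i => h1z _ (by
          have := Finset.prod_ne_zero_iff.1 h3
          exact this i (mem_univ i))
        rw [Finset.sum_const, Finset.card_univ, Fintype.card_fin, nsmul_eq_mul]
        by_cases h5 : RightSees f U w D (eZ φ Z)
        · rw [ip_true h5, mul_one]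
          rcases h5 with h5 | h5
          · exact hacc Z h5.2
          · exact absurd h4 h5.1
        · rw [ip_false h5, mul_zero]
          exact add_nonneg (Finset.sum_nonneg fun i _ => ip_nonneg _) (Nat.cast_nonneg w)
    have e2 : ∀ i : Fin r, ∑ Z : Fin r → β → Bool, wt D₁ Z * ip (T i Z)
        ≤ ∑ Z : Fin r → β → Bool, wt D₁ Z *
          (∑ u, D₀ u * ip (T i (Function.update Z i u))) + δ := by
      intro i
      rw [resample h1s i]
      have h2 : δ = ∑ Z : Fin r → β → Bool, wt D₁ Z * δ := by
        rw [← Finset.sum_mul, wt_sum h1s, one_mul]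
      conv_rhs => rw [h2]
      rw [← Finset.sum_add_distrib]
      refine Finset.sum_le_sum fun Z _ => ?_
      rw [← mul_add]
      exact mul_le_mul_of_nonneg_left (hT i Z) (hw0 Z)
    -- the no part
    have e3 : ∀ i : Fin r, ∑ Z : Fin r → β → Bool, wt D₁ Z *
        (∑ u, D₀ u * ip (RightSees f U w D (eZ φ (Function.update Z i u))))
        ≤ 1 - ∑ Z : Fin r → β → Bool, wt D₁ Z *
          (∑ u, D₀ u * ip (T i (Function.update Z i u))) := by
      intro i
      have h2 : (1 : ℝ) = ∑ Z : Fin r → β → Bool, wt D₁ Z * ∑ u, D₀ u := by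
        rw [h0s]
        simp only [mul_one]
        exact (wt_sum h1s).symm
      conv_rhs => rw [h2]
      rw [← Finset.sum_sub_distrib]
      refine Finset.sum_le_sum fun Z _ => ?_
      rw [← mul_sub, ← Finset.sum_sub_distrib]
      refine mul_le_mul_of_nonneg_left (Finset.sum_le_sum fun u _ => ?_) (hw0 Z)
      rcases eq_or_ne (D₀ u) 0 with h3 | h3
      · rw [h3]; simp
      have h4 : ¬ f (eZ φ (Function.update Z i u)) := by
        rw [hfe]
        intro h5
        have h6 := h5 i
        rw [Function.update_self, h0z u h3] at h6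
        exact absurd h6 (by simp)
      by_cases h5 : RightSees f U w D (eZ φ (Function.update Z i u))
      · rcases h5 with h5 | h5
        · exact absurd h5.1 h4
        · have h7 : RightSees f U w D (eZ φ (Function.update Z i u)) := Or.inr h5
          rw [ip_true h7, ip_false (hrej i _ h5.2)]
          linarith [h0 u]
      · rw [ip_false h5]
        have h6 := ip_le_one (T i (Function.update Z i u))
        nlinarith [h0 u, ip_nonneg (T i (Function.update Z i u))]
    rw [hμsum, div_le_iff₀ (by positivity)]
    have e4 : ∑ i : Fin r, ∑ Z : Fin r → β → Bool, wt D₁ Z *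
        (ip (RightSees f U w D (eZ φ Z)) +
          ∑ u, D₀ u * ip (RightSees f U w D (eZ φ (Function.update Z i u))))
        = ∑ i : Fin r, ∑ Z : Fin r → β → Bool, wt D₁ Z * ip (RightSees f U w D (eZ φ Z))
          + ∑ i : Fin r, ∑ Z : Fin r → β → Bool, wt D₁ Z *
            (∑ u, D₀ u * ip (RightSees f U w D (eZ φ (Function.update Z i u)))) := by
      rw [← Finset.sum_add_distrib]
      refine Finset.sum_congr rfl fun i _ => ?_
      rw [← Finset.sum_add_distrib]
      refine Finset.sum_congr rfl fun Z _ => ?_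
      rw [mul_add]
    have e5 : ∑ i : Fin r, ∑ Z : Fin r → β → Bool, wt D₁ Z * ip (T i Z)
        + ∑ i : Fin r, ∑ Z : Fin r → β → Bool, wt D₁ Z *
            (∑ u, D₀ u * ip (RightSees f U w D (eZ φ (Function.update Z i u))))
        ≤ r * (1 + δ) := by
      rw [← Finset.sum_add_distrib]
      refine (Finset.sum_le_sum fun i _ => add_le_add (e2 i) (e3 i)).trans (le_of_eq ?_)
      rw [Finset.sum_congr rfl fun i _ => (by ring :
        ∑ Z : Fin r → β → Bool, wt D₁ Z * (∑ u, D₀ u * ip (T i (Function.update Z i u))) + δ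
          + (1 - ∑ Z : Fin r → β → Bool, wt D₁ Z *
            (∑ u, D₀ u * ip (T i (Function.update Z i u)))) = 1 + δ)]
      rw [Finset.sum_const, Finset.card_univ, Fintype.card_fin, nsmul_eq_mul]
    rw [e4]
    have e6 : (1 / 2 + δ / 2 + w * (1 / (2 * (r : ℝ)))) * (2 * r) = r * (1 + δ) + w := by
      field_simp
    rw [e6]
    linarith

end Pool.Agent.AVZ
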